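import Pool.Agent.P.MP_e75014_co.Normal

set_option autoImplicit false

open Finset

namespace Pool.Agent.P.MP_e75014_co

variable {s : ℕ}

/-- Bob's invariant in the greedy game: every star is untouched, or its centre and an odd number
of its leaves carry a colour of its own; the colours used form an initial segment. -/
structure Inv (k : ℕ) (c : Fin s × Fin 8 → Option ℕ) (col : Fin s → ℕ) : Prop where
  val : ∀ v, c v = none ∨ c v = some (col v.1)
  star : ∀ i, (∀ j, c (i, j) = none) ∨ c (i, 0) ≠ none
  even : ∀ i, Even (univ.filter (fun j => c (i, j) ≠ none)).card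
  inj : ∀ v w, c v ≠ none → c w ≠ none → col v.1 = col w.1 → v.1 = w.1
  lt : ∀ v, c v ≠ none → col v.1 < k
  seg : ∀ v, c v ≠ none → ∀ b, b < col v.1 → ∃ w, c w = some b

lemma Inv.eq_col {k : ℕ} {c : Fin s × Fin 8 → Option ℕ} {col : Fin s → ℕ} (h : Inv k c col)
    {w : Fin s × Fin 8} {b : ℕ} (hw : c w = some b) : b = col w.1 := by
  rcases h.val w with h1 | h1
  · rw [hw] at h1
    simp at h1
  · rw [hw] at h1
    exact Option.some.inj h1

lemma Inv.see {k : ℕ} {c : Fin s × Fin 8 → Option ℕ} {col : Fin s → ℕ} (h : Inv k c col)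
    {v w : Fin s × Fin 8} {b : ℕ} (hw : c w = some b) (hvw : v.1 ≠ w.1) :
    ∃ u, (starCompl s).Adj v u ∧ c u = some b := by
  have hb := h.eq_col hw
  obtain ⟨i, j0⟩ := w
  have h0 : c (i, 0) ≠ none := by
    rcases h.star i with h1 | h1
    · rw [h1 j0] at hw
      simp at hw
    · exact h1
  have hleaf : ∃ j : Fin 8, j ≠ 0 ∧ c (i, j) ≠ none := by
    by_contra hc
    push Not at hc
    have : univ.filter (fun j => c (i, j) ≠ none) = {0} := by
      ext j
      simp only [mem_filter, mem_univ, true_and, mem_singleton]
      constructor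
      · intro hj
        by_contra hj0
        exact hj (hc j hj0)
      · rintro rfl
        exact h0
    have he := h.even i
    rw [this] at he
    simp at he
  obtain ⟨j, hj, hj'⟩ := hleaf
  have e0 : c (i, 0) = some b := by
    rw [hb]
    exact (h.val (i, 0)).resolve_left h0
  have e1 : c (i, j) = some b := by
    rw [hb]
    exact (h.val (i, j)).resolve_left hj'
  by_cases hs : side v = side (i, 0)
  · exact ⟨(i, j), ⟨hvw, by rw [hs]; exact side_centre_ne i hj⟩, e1⟩
  · exact ⟨(i, 0), ⟨hvw, hs⟩, e0⟩

lemma Inv.step {k : ℕ} {c : Fin s × Fin 8 → Option ℕ} {col : Fin s → ℕ} (h : Inv k c col)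
    {i : Fin s} {j : Fin 8} {a : ℕ} (hv : c (i, j) = none) (ha : a < k)
    (hl : ∀ w, (starCompl s).Adj (i, j) w → c w ≠ some a)
    (hg : ∀ b, b < a → ∃ w, (starCompl s).Adj (i, j) w ∧ c w = some b) :
    ∃ j' : Fin 8, Function.update c (i, j) (some a) (i, j') = none ∧
      (∀ w, (starCompl s).Adj (i, j') w → Function.update c (i, j) (some a) w ≠ some a) ∧
      (∀ b, b < a → ∃ w, (starCompl s).Adj (i, j') w ∧
        Function.update c (i, j) (some a) w = some b) ∧
      Inv k (Function.update (Function.update c (i, j) (some a)) (i, j') (some a))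
        (Function.update col i a) := by
  have hA : ∀ w, c w = some a → w.1 = i := by
    intro w hw
    by_contra hne
    obtain ⟨u, hu, hu'⟩ := h.see (v := (i, j)) hw (Ne.symm hne)
    exact hl u hu hu'
  have hB : ∀ j', c (i, j') ≠ none → col i = a := by
    intro j' hj'
    rcases lt_trichotomy a (col i) with h1 | h1 | h1
    · obtain ⟨w, hw⟩ := h.seg (i, j') hj' a h1
      have h2 := h.eq_col hw
      rw [hA w hw] at h2
      omega
    · exact h1.symm
    · obtain ⟨w, hw, hw'⟩ := hg (col i) h1
      have h2 := h.eq_col hw'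
      exact absurd (h.inj (i, j') w hj' (by simp [hw']) h2) hw.1
  have hj' : ∃ j' : Fin 8, j' ≠ j ∧ c (i, j') = none ∧ (c (i, 0) ≠ none ∨ j = 0 ∨ j' = 0) := by
    rcases h.star i with h1 | h1
    · by_cases hj : j = 0
      · exact ⟨1, by rw [hj]; decide, h1 1, Or.inr (Or.inl hj)⟩
      · exact ⟨0, Ne.symm hj, h1 0, Or.inr (Or.inr rfl)⟩
    · by_contra hc
      push Not at hc
      have : univ.filter (fun j => c (i, j) ≠ none) = univ.erase j := by
        ext j'
        simp only [mem_filter, mem_univ, true_and, mem_erase, and_true]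
        constructor
        · rintro h2 rfl
          exact h2 hv
        · intro h2 h3
          exact h1 (hc j' h2 h3).1
      have he := h.even i
      rw [this, card_erase_of_mem (mem_univ _)] at he
      simp only [card_univ, Fintype.card_fin] at he
      exact absurd he (by decide)
  obtain ⟨j', hjj, hn', h0⟩ := hj'
  have hne : ((i, j') : Fin s × Fin 8) ≠ (i, j) := fun e => hjj (Prod.mk.inj e).2
  have hout : ∀ w : Fin s × Fin 8, w.1 ≠ i → w ≠ (i, j) ∧ w ≠ (i, j') := by
    intro w hw
    constructor <;> (rintro rfl; exact hw rfl)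
  set c2 := Function.update (Function.update c (i, j) (some a)) (i, j') (some a) with hc2
  have hc2w : ∀ w, c2 w = c w ∨ (c w = none ∧ w.1 = i ∧ c2 w = some a) := by
    intro w
    by_cases e1 : w = (i, j')
    · right
      subst e1
      exact ⟨hn', rfl, by simp [hc2]⟩
    · by_cases e2 : w = (i, j)
      · right
        subst e2
        exact ⟨hv, rfl, by simp [hc2, Function.update_of_ne e1]⟩
      · left
        simp [hc2, Function.update_of_ne e1, Function.update_of_ne e2]
  have hc2out : ∀ w : Fin s × Fin 8, w.1 ≠ i → c2 w = c w := fun w hw =>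
    (hc2w w).resolve_right fun e => hw e.2.1
  have hcolout : ∀ i', i' ≠ i → Function.update col i a i' = col i' := fun i' e =>
    Function.update_of_ne e _ _
  have hcolne : ∀ w : Fin s × Fin 8, w.1 ≠ i → c w ≠ none → col w.1 ≠ a := by
    intro w hw hw' e
    apply hw
    apply hA
    rw [← e]
    exact (h.val w).resolve_left hw'
  have hkeep : ∀ w b, c w = some b → c2 w = some b := by
    intro w b hw
    rcases hc2w w with e | e
    · rw [e, hw]
    · rw [e.1] at hw
      simp at hw
  refine ⟨j', by rw [Function.update_of_ne hne]; exact hn', ?_, ?_,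
    (⟨?_, ?_, ?_, ?_, ?_, ?_⟩ : Inv k c2 (Function.update col i a))⟩
  · intro w hw
    rw [Function.update_of_ne (hout w hw.1.symm).1]
    exact fun e => hw.1 (hA w e).symm
  · intro b hb
    obtain ⟨w, hw, hw'⟩ := hg b hb
    obtain ⟨u, hu, hu'⟩ := h.see (v := (i, j')) hw' hw.1
    exact ⟨u, hu, by rw [Function.update_of_ne (hout u hu.1.symm).1]; exact hu'⟩
  · rintro ⟨i1, j1⟩
    by_cases e : i1 = i
    · subst e
      simp only [Function.update_self]
      rcases hc2w (i1, j1) with e1 | e1
      · rw [e1]
        rcases h.val (i1, j1) with e2 | e2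
        · exact Or.inl e2
        · right
          rw [e2, hB j1 (by simp [e2])]
      · exact Or.inr e1.2.2
    · rw [hc2out _ e, hcolout _ e]
      exact h.val (i1, j1)
  · intro i1
    by_cases e : i1 = i
    · subst e
      right
      rcases h0 with h0 | h0 | h0
      · exact update_ne_none (update_ne_none h0 _ _) _ _
      · subst h0
        exact update_ne_none (by simp) _ _
      · subst h0
        simp [hc2]
    · rcases h.star i1 with e1 | e1
      · exact Or.inl fun j1 => by rw [hc2out _ e]; exact e1 j1
      · exact Or.inr (by rw [hc2out _ e]; exact e1)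
  · intro i1
    by_cases e : i1 = i
    · subst e
      have : univ.filter (fun j1 => c2 (i1, j1) ≠ none) =
          insert j' (insert j (univ.filter (fun j1 => c (i1, j1) ≠ none))) := by
        ext j1
        simp only [mem_filter, mem_univ, true_and, mem_insert]
        by_cases e1 : j1 = j'
        · subst e1
          simp [hc2]
        · by_cases e2 : j1 = j
          · subst e2
            simp [hc2, e1]
          · simp [hc2, e1, e2]
      rw [this, card_insert_of_notMem (by simp [hjj, hn']), card_insert_of_notMem (by simp [hv])]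
      exact (h.even i1).add (by decide : Even 2)
    · have : univ.filter (fun j1 => c2 (i1, j1) ≠ none) =
          univ.filter (fun j1 => c (i1, j1) ≠ none) := by
        apply filter_congr
        intro j1 _
        rw [hc2out _ e]
      rw [this]
      exact h.even i1
  · intro v w hv' hw' e
    by_cases e1 : v.1 = i
    · by_cases e2 : w.1 = i
      · rw [e1, e2]
      · rw [e1, Function.update_self, hcolout _ e2] at e
        rw [hc2out _ e2] at hw'
        exact absurd e.symm (hcolne w e2 hw')
    · by_cases e2 : w.1 = i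
      · rw [e2, Function.update_self, hcolout _ e1] at e
        rw [hc2out _ e1] at hv'
        exact absurd e (hcolne v e1 hv')
      · rw [hcolout _ e1, hcolout _ e2] at e
        rw [hc2out _ e1] at hv'
        rw [hc2out _ e2] at hw'
        exact h.inj v w hv' hw' e
  · intro v hv'
    by_cases e1 : v.1 = i
    · rw [e1, Function.update_self]
      exact ha
    · rw [hcolout _ e1]
      rw [hc2out _ e1] at hv'
      exact h.lt v hv'
  · intro v hv' b hb
    by_cases e1 : v.1 = i
    · rw [e1, Function.update_self] at hb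
      obtain ⟨w, _, hw⟩ := hg b hb
      exact ⟨w, hkeep w b hw⟩
    · rw [hcolout _ e1] at hb
      rw [hc2out _ e1] at hv'
      obtain ⟨w, hw⟩ := h.seg v hv' b hb
      exact ⟨w, hkeep w b hw⟩

lemma cnt_update_eq (c : Fin s × Fin 8 → Option ℕ) (v : Fin s × Fin 8) (a : ℕ)
    (hv : c v = none) : cnt (Function.update c v (some a)) = cnt c + 1 := by
  unfold cnt
  rw [← card_insert_of_notMem (a := v) (by simp [hv])]
  congr 1
  ext w
  by_cases e : w = v
  · subst e
    simp
  · simp [e]

lemma cnt_le (c : Fin s × Fin 8 → Option ℕ) : cnt c ≤ s * 8 := by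
  unfold cnt
  refine (card_le_univ _).trans ?_
  simp

/-- Bob wins the greedy colouring game with fewer than `s` colours. -/
theorem bob_greedy {k : ℕ} (hk : k < s) :
    ¬ ∃ W : Bool → (Fin s × Fin 8 → Option ℕ) → Prop, W true (fun _ => none) ∧
      ∀ (t : Bool) (c : Fin s × Fin 8 → Option ℕ), W t c →
        (∀ v, c v ≠ none) ∨
        (t = true ∧ ∃ (v : Fin s × Fin 8) (a : ℕ), c v = none ∧ a < k ∧
            (∀ w, (starCompl s).Adj v w → c w ≠ some a) ∧
            (∀ b, b < a → ∃ w, (starCompl s).Adj v w ∧ c w = some b) ∧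
            W false (Function.update c v (some a))) ∨
        (t = false ∧
            ∀ (v : Fin s × Fin 8) (a : ℕ), c v = none →
              (∀ w, (starCompl s).Adj v w → c w ≠ some a) →
              (∀ b, b < a → ∃ w, (starCompl s).Adj v w ∧ c w = some b) →
              a < k ∧ W true (Function.update c v (some a))) := by
  rintro ⟨W, hW0, hW⟩
  have key : ∀ n : ℕ, ∃ c col, W true c ∧ Inv k c col ∧ n ≤ cnt c := by
    intro n
    induction n with
    | zero =>
      refine ⟨fun _ => none, fun _ => 0, hW0, ⟨?_, ?_, ?_, ?_, ?_, ?_⟩, Nat.zero_le _⟩ <;> simp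
    | succ n ih =>
      obtain ⟨c, col, h1, h2, h3⟩ := ih
      rcases hW true c h1 with h | h | h
      · exfalso
        have : (univ : Finset (Fin s)).card ≤ (range k).card := by
          apply card_le_card_of_injOn col
          · intro i _
            exact mem_coe.2 (mem_range.2 (h2.lt (i, 0) (h _)))
          · intro i _ i' _ e
            exact h2.inj (i, 0) (i', 0) (h _) (h _) e
        simp at this
        omega
      · obtain ⟨_, ⟨i, j⟩, a, hv, ha, hl, hg, hW1⟩ := h
        obtain ⟨j', e1, e2, e3, e4⟩ := h2.step hv ha hl hg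
        rcases hW false _ hW1 with h | h | h
        · exact absurd e1 (h _)
        · simp at h
        · refine ⟨_, _, (h.2 (i, j') a e1 e2 e3).2, e4, ?_⟩
          rw [cnt_update_eq _ _ _ e1, cnt_update_eq _ _ _ hv]
          omega
      · simp at h
  obtain ⟨c, _, _, _, h⟩ := key (s * 8 + 1)
  have := cnt_le c
  omega

end Pool.Agent.P.MP_e75014_co
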