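import Mathlib

set_option autoImplicit false

open Finset

namespace Pool.Agent.P.MP_e75014_co

/-- Side of the bipartition: vertex `(i, 0)` is the centre of star `i`, the vertices `(i, j)` with
`j ≠ 0` are its seven leaves, and centres alternate between the two sides. -/
def side {s : ℕ} (v : Fin s × Fin 8) : Bool :=
  xor (decide (v.1.val % 2 = 0)) (decide (v.2 = 0))

/-- The bipartite complement of a forest of `s` stars with seven leaves each. -/
def starCompl (s : ℕ) : SimpleGraph (Fin s × Fin 8) where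
  Adj v w := v.1 ≠ w.1 ∧ side v ≠ side w
  symm := ⟨fun _ _ h => ⟨h.1.symm, h.2.symm⟩⟩
  loopless := ⟨fun _ h => h.1 rfl⟩

variable {s : ℕ}

lemma side_leaf (i : Fin s) {j j' : Fin 8} (hj : j ≠ 0) (hj' : j' ≠ 0) :
    side (i, j) = side (i, j') := by
  simp [side, hj, hj']

lemma side_centre_ne (i : Fin s) {j : Fin 8} (hj : j ≠ 0) : side (i, 0) ≠ side (i, j) := by
  simp [side, hj]

/-- Number of coloured vertices. -/
def cnt (c : Fin s × Fin 8 → Option ℕ) : ℕ := (univ.filter (fun v => c v ≠ none)).card

lemma cnt_update_le (c : Fin s × Fin 8 → Option ℕ) (v : Fin s × Fin 8) (a : ℕ) :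
    cnt (Function.update c v (some a)) ≤ cnt c + 1 := by
  unfold cnt
  refine le_trans (card_le_card (t := insert v (univ.filter (fun v => c v ≠ none))) ?_)
    (card_insert_le _ _)
  intro w hw
  rw [mem_insert]
  by_cases h : w = v
  · exact Or.inl h
  · right
    simpa [Function.update_of_ne h] using hw

lemma fresh_colour (c : Fin s × Fin 8 → Option ℕ) (h : cnt c ≤ 6) :
    ∃ a, a < 7 ∧ ∀ w, c w ≠ some a := by
  by_contra hc
  push Not at hc
  haveI : Nonempty (Fin s × Fin 8) := ⟨(hc 0 (by norm_num)).choose⟩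
  choose! f hf using hc
  have : (range 7).card ≤ cnt c := by
    apply card_le_card_of_injOn f
    · intro a ha
      have := hf a (mem_range.1 ha)
      simp [this]
    · intro a ha b hb hab
      have h1 := hf a (mem_range.1 ha)
      have h2 := hf b (mem_range.1 hb)
      rw [hab, h2] at h1
      exact (Option.some.inj h1).symm
  rw [card_range] at this
  omega

lemma fresh_leaf (c : Fin s × Fin 8 → Option ℕ) (i : Fin s) (h : cnt c ≤ 6) :
    ∃ j : Fin 8, j ≠ 0 ∧ c (i, j) = none := by
  by_contra hc
  push Not at hc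
  have : ((univ : Finset (Fin 8)).erase 0).card ≤ cnt c := by
    apply card_le_card_of_injOn (fun j => (i, j))
    · intro j hj
      have := hc j (ne_of_mem_erase hj)
      simpa using this
    · intro a _ b _ hab
      exact (Prod.mk.inj hab).2
  rw [card_erase_of_mem (mem_univ _)] at this
  simp at this
  omega

/-- Some colour below `7` stays available for ever to every vertex on side `σ`. -/
def Good (σ : Bool) (c : Fin s × Fin 8 → Option ℕ) : Prop :=
  ∃ α, α < 7 ∧ (∀ w, side w ≠ σ → c w ≠ some α) ∧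
    ∀ w, side w ≠ σ → c w = none → ∃ u, (starCompl s).Adj w u ∧ c u = some α

lemma Good.update {σ : Bool} {c : Fin s × Fin 8 → Option ℕ} (h : Good σ c) {v : Fin s × Fin 8}
    {a : ℕ} (hv : c v = none) (ha : ∀ w, (starCompl s).Adj v w → c w ≠ some a) :
    Good σ (Function.update c v (some a)) := by
  obtain ⟨α, h1, h2, h3⟩ := h
  refine ⟨α, h1, fun w hw => ?_, fun w hw hn => ?_⟩
  · by_cases hwv : w = v
    · subst hwv
      obtain ⟨u, hu, hu'⟩ := h3 w hw hv
      rw [Function.update_self]
      intro he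
      rw [Option.some.inj he] at ha
      exact ha u hu hu'
    · rw [Function.update_of_ne hwv]
      exact h2 w hw
  · have hwv : w ≠ v := by
      rintro rfl
      simp at hn
    rw [Function.update_of_ne hwv] at hn
    obtain ⟨u, hu, hu'⟩ := h3 w hw hn
    refine ⟨u, hu, ?_⟩
    have : u ≠ v := by
      rintro rfl
      rw [hv] at hu'
      simp at hu'
    rw [Function.update_of_ne this]
    exact hu'

lemma Good.legal {c : Fin s × Fin 8 → Option ℕ} {v : Fin s × Fin 8} (h : Good (side v) c) :
    ∃ a, a < 7 ∧ ∀ w, (starCompl s).Adj v w → c w ≠ some a := by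
  obtain ⟨α, h1, h2, _⟩ := h
  exact ⟨α, h1, fun w hw => h2 w hw.2.symm⟩

lemma good_of_leaf {c : Fin s × Fin 8 → Option ℕ} {i : Fin s} {j : Fin 8} {a : ℕ}
    (hi : c (i, 0) ≠ none) (hj : j ≠ 0) (ha : a < 7) (hf : ∀ w, c w ≠ some a) :
    Good (side (i, j)) (Function.update c (i, j) (some a)) := by
  refine ⟨a, ha, fun w hw => ?_, fun w hw hn => ?_⟩
  · have : w ≠ (i, j) := by
      rintro rfl
      exact hw rfl
    rw [Function.update_of_ne this]
    exact hf w
  · have h1 : w ≠ (i, j) := by
      rintro rfl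
      exact hw rfl
    rw [Function.update_of_ne h1] at hn
    refine ⟨(i, j), ⟨?_, hw⟩, Function.update_self ..⟩
    obtain ⟨i', j'⟩ := w
    rintro (rfl : i' = i)
    by_cases hj' : j' = 0
    · subst hj'
      exact hi hn
    · exact hw (side_leaf i' hj' hj)

lemma update_ne_none {c : Fin s × Fin 8 → Option ℕ} {u : Fin s × Fin 8} (h : c u ≠ none)
    (v : Fin s × Fin 8) (a : ℕ) : Function.update c v (some a) u ≠ none := by
  by_cases huv : u = v
  · subst huv
    simp
  · rw [Function.update_of_ne huv]
    exact h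

/-- Alice wins the ordinary colouring game with seven colours. -/
theorem alice_normal (hs : 2 ≤ s) :
    ∃ W : Bool → (Fin s × Fin 8 → Option ℕ) → Prop, W true (fun _ => none) ∧
      ∀ (t : Bool) (c : Fin s × Fin 8 → Option ℕ), W t c →
        (∀ v, c v ≠ none) ∨
        (t = true ∧ ∃ (v : Fin s × Fin 8) (a : ℕ), c v = none ∧ a < 7 ∧
            (∀ w, (starCompl s).Adj v w → c w ≠ some a) ∧
            W false (Function.update c v (some a))) ∨
        (t = false ∧
            (∃ (v : Fin s × Fin 8) (a : ℕ), c v = none ∧ a < 7 ∧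
              (∀ w, (starCompl s).Adj v w → c w ≠ some a)) ∧
            ∀ (v : Fin s × Fin 8) (a : ℕ), c v = none → a < 7 →
              (∀ w, (starCompl s).Adj v w → c w ≠ some a) →
              W true (Function.update c v (some a))) := by
  let i0 : Fin s := ⟨0, by omega⟩
  let i1 : Fin s := ⟨1, by omega⟩
  have hs0 : ∀ j : Fin 8, j ≠ 0 → side (i0, j) = true := fun j hj => by simp [side, i0, hj]
  have hs1 : ∀ j : Fin 8, j ≠ 0 → side (i1, j) = false := fun j hj => by simp [side, i1, hj]
  refine ⟨fun t c => (t = true ∧ cnt c = 0) ∨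
    (cnt c + (if t then 0 else 1) ≤ 2 ∧ c (i0, 0) ≠ none) ∨
    (cnt c + (if t then 0 else 1) ≤ 4 ∧ Good true c) ∨
    (cnt c + (if t then 0 else 1) ≤ 6 ∧ Good true c ∧ c (i1, 0) ≠ none) ∨
    (Good true c ∧ Good false c), Or.inl ⟨rfl, by simp [cnt]⟩, ?_⟩
  intro t c hW
  by_cases hall : ∀ v, c v ≠ none
  · exact Or.inl hall
  right
  push Not at hall
  obtain ⟨v0, hv0⟩ := hall
  -- the last phase always offers a legal move at `v0`
  have hfinal : Good true c → Good false c →
      ∃ a, a < 7 ∧ ∀ w, (starCompl s).Adj v0 w → c w ≠ some a := by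
    intro h1 h2
    apply Good.legal
    cases side v0
    · exact h2
    · exact h1
  -- Alice finishes with a fresh colour on a leaf of star `i1`
  have hfin : cnt c ≤ 6 → Good true c → c (i1, 0) ≠ none →
      ∃ (v : Fin s × Fin 8) (a : ℕ), c v = none ∧ a < 7 ∧
        (∀ w, (starCompl s).Adj v w → c w ≠ some a) ∧
        Good true (Function.update c v (some a)) ∧ Good false (Function.update c v (some a)) := by
    intro h1 h2 h3
    obtain ⟨a, ha, hf⟩ := fresh_colour c h1
    obtain ⟨j, hj, hj'⟩ := fresh_leaf c i1 h1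
    refine ⟨(i1, j), a, hj', ha, fun w _ => hf w, h2.update hj' fun w _ => hf w, ?_⟩
    rw [← hs1 j hj]
    exact good_of_leaf h3 hj ha hf
  cases t
  · right
    refine ⟨rfl, ?_, ?_⟩
    · rcases hW with h | h | h | h | h
      · simp at h
      · obtain ⟨a, ha, hf⟩ := fresh_colour c (by omega)
        exact ⟨v0, a, hv0, ha, fun w _ => hf w⟩
      · obtain ⟨a, ha, hf⟩ := fresh_colour c (by omega)
        exact ⟨v0, a, hv0, ha, fun w _ => hf w⟩
      · obtain ⟨a, ha, hf⟩ := fresh_colour c (by omega)
        exact ⟨v0, a, hv0, ha, fun w _ => hf w⟩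
      · obtain ⟨a, ha, hf⟩ := hfinal h.1 h.2
        exact ⟨v0, a, hv0, ha, hf⟩
    · intro v a hv _ hl
      have hc := cnt_update_le c v a
      rcases hW with h | h | h | h | h
      · simp at h
      · simp only [Bool.false_eq_true, if_false] at h
        exact Or.inr (Or.inl ⟨by simp only [if_true]; omega, update_ne_none h.2 v a⟩)
      · simp only [Bool.false_eq_true, if_false] at h
        exact Or.inr (Or.inr (Or.inl ⟨by simp only [if_true]; omega, h.2.update hv hl⟩))
      · simp only [Bool.false_eq_true, if_false] at h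
        exact Or.inr (Or.inr (Or.inr (Or.inl ⟨by simp only [if_true]; omega,
          h.2.1.update hv hl, update_ne_none h.2.2 v a⟩)))
      · exact Or.inr (Or.inr (Or.inr (Or.inr ⟨h.1.update hv hl, h.2.update hv hl⟩)))
  · left
    refine ⟨rfl, ?_⟩
    rcases hW with h | h | h | h | h
    · obtain ⟨a, ha, hf⟩ := fresh_colour c (by omega)
      have hn : c (i0, 0) = none := by
        by_contra hne
        have : 0 < cnt c := card_pos.2 ⟨(i0, 0), by simpa using hne⟩
        omega
      have hc := cnt_update_le c (i0, 0) a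
      refine ⟨(i0, 0), a, hn, ha, fun w _ => hf w, Or.inr (Or.inl ⟨?_, by simp⟩)⟩
      simp only [Bool.false_eq_true, if_false]
      omega
    · simp only [if_true] at h
      obtain ⟨a, ha, hf⟩ := fresh_colour c (by omega)
      obtain ⟨j, hj, hj'⟩ := fresh_leaf c i0 (by omega)
      have hc := cnt_update_le c (i0, j) a
      refine ⟨(i0, j), a, hj', ha, fun w _ => hf w, Or.inr (Or.inr (Or.inl ⟨?_, ?_⟩))⟩
      · simp only [Bool.false_eq_true, if_false]
        omega
      · rw [← hs0 j hj]
        exact good_of_leaf h.2 hj ha hf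
    · simp only [if_true] at h
      by_cases hn : c (i1, 0) = none
      · obtain ⟨a, ha, hf⟩ := fresh_colour c (by omega)
        have hc := cnt_update_le c (i1, 0) a
        refine ⟨(i1, 0), a, hn, ha, fun w _ => hf w,
          Or.inr (Or.inr (Or.inr (Or.inl ⟨?_, h.2.update hn fun w _ => hf w, by simp⟩)))⟩
        simp only [Bool.false_eq_true, if_false]
        omega
      · obtain ⟨v, a, h1, h2, h3, h4⟩ := hfin (by omega) h.2 hn
        exact ⟨v, a, h1, h2, h3, Or.inr (Or.inr (Or.inr (Or.inr h4)))⟩
    · simp only [if_true] at h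
      obtain ⟨v, a, h1, h2, h3, h4⟩ := hfin (by omega) h.2.1 h.2.2
      exact ⟨v, a, h1, h2, h3, Or.inr (Or.inr (Or.inr (Or.inr h4)))⟩
    · obtain ⟨a, ha, hf⟩ := hfinal h.1 h.2
      exact ⟨v0, a, hv0, ha, hf,
        Or.inr (Or.inr (Or.inr (Or.inr ⟨h.1.update hv0 hf, h.2.update hv0 hf⟩)))⟩

end Pool.Agent.P.MP_e75014_co
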